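import Mathlib
import Pool.Agent.H702R3.TV.Core

set_option autoImplicit false

/-!
# Reducts of classes of structures and the perfect-set dichotomy

Structures in two countable relational languages are coded as structures in one language, and the
countable-or-perfect dichotomy passes from a class of expansions to the class of the reducts, if every structure has
only countably many expansions in the class up to isomorphism.
-/

namespace Pool.Agent.Q331.PT

open Set MeasureTheory

/-- structures on `ℕ`, the relation number `i` has arity `a i` -/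
abbrev S (a : ℕ → ℕ) : Type := (i : ℕ) → (Fin (a i) → ℕ) → Bool

/-- `σ` is an isomorphism from `x` to `y` -/
def Iso {a : ℕ → ℕ} (σ : Equiv.Perm ℕ) (x y : S a) : Prop :=
  ∀ (i : ℕ) (v : Fin (a i) → ℕ), y i (⇑σ ∘ v) = x i v

variable {a b : ℕ → ℕ}

theorem Iso.symm {σ : Equiv.Perm ℕ} {x y : S a} (h : Iso σ x y) : Iso σ.symm y x := by
  intro i v
  rw [← h i (⇑σ.symm ∘ v)]
  congr 1
  funext k
  simp

theorem Iso.trans {σ τ : Equiv.Perm ℕ} {x y z : S a} (h : Iso σ x y) (h' : Iso τ y z) : Iso (σ.trans τ) x z := by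
  intro i v
  rw [← h i v, ← h' i (⇑σ ∘ v)]
  rfl

/-- the structure transported along `σ` -/
def mv (σ : Equiv.Perm ℕ) (x : S a) : S a := fun i v => x i (⇑σ.symm ∘ v)

theorem iso_mv (σ : Equiv.Perm ℕ) (x : S a) : Iso σ x (mv σ x) := by
  intro i v
  unfold mv
  congr 1
  funext k
  simp

/-- the arities of two languages together -/
def ar (a b : ℕ → ℕ) : ℕ ⊕ ℕ → ℕ := Sum.elim a b

/-- one language for both -/
def both (a b : ℕ → ℕ) : ℕ → ℕ := fun i => ar a b (Equiv.natSumNatEquivNat.symm i)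

/-- the relations of a structure in the common language -/
def un (y : S (both a b)) : (s : ℕ ⊕ ℕ) → (Fin (ar a b s) → ℕ) → Bool :=
  Equiv.piCongrLeft (fun s => (Fin (ar a b s) → ℕ) → Bool) Equiv.natSumNatEquivNat.symm y

theorem un_apply (y : S (both a b)) (i : ℕ) : un y (Equiv.natSumNatEquivNat.symm i) = y i :=
  Equiv.piCongrLeft_apply_apply _ _ _ _

/-- the first part -/
def fs (y : S (both a b)) : S a := fun j => un y (Sum.inl j)

/-- the second part -/
def sn (y : S (both a b)) : S b := fun j => un y (Sum.inr j)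

/-- the common structure -/
def mk (x : S a) (z : S b) : S (both a b) :=
  fun i => Sum.rec (motive := fun s => (Fin (ar a b s) → ℕ) → Bool) x z (Equiv.natSumNatEquivNat.symm i)

theorem all_iff {Φ : (s : ℕ ⊕ ℕ) → ((Fin (ar a b s) → ℕ) → Bool) → ((Fin (ar a b s) → ℕ) → Bool) → Prop}
    (x y : S (both a b)) : (∀ i, Φ (Equiv.natSumNatEquivNat.symm i) (x i) (y i)) ↔
      (∀ j, Φ (Sum.inl j) (fs x j) (fs y j)) ∧ (∀ j, Φ (Sum.inr j) (sn x j) (sn y j)) := by
  have h0 : (∀ i, Φ (Equiv.natSumNatEquivNat.symm i) (x i) (y i)) ↔ ∀ s, Φ s (un x s) (un y s) := by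
    constructor
    · intro h s
      obtain ⟨i, rfl⟩ := Equiv.natSumNatEquivNat.symm.surjective s
      rw [un_apply, un_apply]
      exact h i
    · intro h i
      have := h (Equiv.natSumNatEquivNat.symm i)
      rwa [un_apply, un_apply] at this
  rw [h0]
  constructor
  · intro h
    exact ⟨fun j => h _, fun j => h _⟩
  · rintro ⟨h1, h2⟩ (j | j)
    · exact h1 j
    · exact h2 j

theorem iso_iff {σ : Equiv.Perm ℕ} {x y : S (both a b)} : Iso σ x y ↔ Iso σ (fs x) (fs y) ∧ Iso σ (sn x) (sn y) :=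
  all_iff (Φ := fun s X Y => ∀ v : Fin (ar a b s) → ℕ, Y (⇑σ ∘ v) = X v) x y

theorem un_mk (x : S a) (z : S b) (s : ℕ ⊕ ℕ) :
    un (mk x z) s = Sum.rec (motive := fun s => (Fin (ar a b s) → ℕ) → Bool) x z s := by
  obtain ⟨i, rfl⟩ := Equiv.natSumNatEquivNat.symm.surjective s
  rw [un_apply]
  rfl

theorem fs_mk (x : S a) (z : S b) : fs (mk x z) = x := by
  funext j
  exact un_mk x z (Sum.inl j)

theorem sn_mk (x : S a) (z : S b) : sn (mk x z) = z := by
  funext j
  exact un_mk x z (Sum.inr j)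

theorem un_cont (s : ℕ ⊕ ℕ) : Continuous fun y : S (both a b) => un y s := by
  obtain ⟨i, rfl⟩ := Equiv.natSumNatEquivNat.symm.surjective s
  have : (fun y : S (both a b) => un y (Equiv.natSumNatEquivNat.symm i)) = fun y => y i := by
    funext y
    exact un_apply y i
  rw [this]
  exact continuous_apply i

theorem fs_cont : Continuous fun y : S (both a b) => fs y := continuous_pi fun j => un_cont (Sum.inl j)

theorem sn_cont : Continuous fun y : S (both a b) => sn y := continuous_pi fun j => un_cont (Sum.inr j)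

instance bs : BorelSpace (S a) := by
  have h : ∀ i, BorelSpace ((Fin (a i) → ℕ) → Bool) := fun i => inferInstance
  exact Pi.borelSpace

theorem pair_meas : Measurable fun y : S (both a b) => (fs y, sn y) :=
  (fs_cont.measurable).prodMk sn_cont.measurable

/-- isomorphism of Borel families is analytic -/
theorem analytic_iso (u v : (ℕ → Bool) → S a) (hu : Measurable u) (hv : Measurable v) :
    AnalyticSet {p : (ℕ → Bool) × (ℕ → Bool) | ∃ σ : Equiv.Perm ℕ, Iso σ (u p.1) (v p.2)} := by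
  set Ω : Type := ((ℕ → Bool) × (ℕ → Bool)) × ((ℕ → ℕ) × (ℕ → ℕ)) with hΩ
  have k1 : ∀ a b : ℕ, Measurable fun q : Ω => q.2.1 a = b := fun a b => by
    have h : Measurable fun q : Ω => q.2.1 a :=
      (measurable_pi_apply a).comp (measurable_fst.comp measurable_snd)
    exact measurableSet_setOfPred.1 (h (measurableSet_singleton b))
  have k2 : ∀ a b : ℕ, Measurable fun q : Ω => q.2.2 a = b := fun a b => by
    have h : Measurable fun q : Ω => q.2.2 a :=
      (measurable_pi_apply a).comp (measurable_snd.comp measurable_snd)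
    exact measurableSet_setOfPred.1 (h (measurableSet_singleton b))
  have k3 : ∀ (f g : Ω → Bool), Measurable f → Measurable g →
      Measurable fun q : Ω => f q = g q := fun f g hf hg =>
    measurableSet_setOfPred.1 (measurableSet_eq_fun hf hg)
  have mu : Measurable fun q : Ω => u q.1.1 := hu.comp (measurable_fst.comp measurable_fst)
  have mv : Measurable fun q : Ω => v q.1.2 := hv.comp (measurable_snd.comp measurable_fst)
  have m0 : ∀ (i : ℕ) (w : Fin (a i) → ℕ), Measurable fun z : S a => z i w := fun i w =>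
    (measurable_pi_apply w).comp (measurable_pi_apply i)
  let P : Ω → Prop := fun q => (∀ a b, q.2.1 a = b → q.2.2 b = a) ∧
    (∀ a b, q.2.2 a = b → q.2.1 b = a) ∧
    (∀ i (s t : Fin (a i) → ℕ), (∀ k, q.2.1 (s k) = t k) → (v q.1.2) i t = (u q.1.1) i s)
  have hP : Measurable P := by
    refine (Measurable.forall fun a => Measurable.forall fun b => (k1 a b).imp (k2 b a)).and ?_
    refine (Measurable.forall fun a => Measurable.forall fun b => (k2 a b).imp (k1 b a)).and ?_
    exact Measurable.forall fun i => Measurable.forall fun s => Measurable.forall fun t =>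
      (Measurable.forall fun k => k1 (s k) (t k)).imp (k3 _ _ ((m0 i t).comp mv) ((m0 i s).comp mu))
  have h2 : {p : (ℕ → Bool) × (ℕ → Bool) | ∃ σ : Equiv.Perm ℕ, Iso σ (u p.1) (v p.2)} =
      Prod.fst '' {q : Ω | P q} := by
    ext p
    constructor
    · rintro ⟨σ, hσ⟩
      refine ⟨(p, (⇑σ, ⇑σ.symm)), ⟨?_, ?_, ?_⟩, rfl⟩
      · rintro a b rfl; exact σ.symm_apply_apply a
      · rintro a b rfl; exact σ.apply_symm_apply a
      · intro i s t hst
        have : t = ⇑σ ∘ s := by
          funext k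
          exact (hst k).symm
        rw [this]
        exact hσ i s
    · rintro ⟨⟨p', s, t⟩, ⟨h1, h2, h4⟩, rfl⟩
      exact ⟨⟨s, t, fun a => h1 a _ rfl, fun a => h2 a _ rfl⟩, fun i w => h4 i w _ fun k => rfl⟩
  rw [h2]
  exact (measurableSet_setOfPred.2 hP).analyticSet_image measurable_fst

/-- every structure has only countably many expansions in `T` up to isomorphism -/
def Few (T : Set (S a × S b)) : Prop :=
  ∀ x, ∃ f : ℕ → S b, ∀ z, (x, z) ∈ T → ∃ (n : ℕ) (σ : Equiv.Perm ℕ), Iso σ x x ∧ Iso σ (f n) z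

/-- invariance under isomorphism -/
def Inv (T : Set (S a × S b)) : Prop :=
  ∀ p ∈ T, ∀ (q : S a × S b) (σ : Equiv.Perm ℕ), Iso σ p.1 q.1 → Iso σ p.2 q.2 → q ∈ T

/-- the set of the common structures -/
def comm (T : Set (S a × S b)) : Set (S (both a b)) := {y | (fs y, sn y) ∈ T}

theorem comm_meas {T : Set (S a × S b)} (hT : MeasurableSet T) : MeasurableSet (comm T) := pair_meas hT

/-- The transfer to the reducts. -/
theorem reduct {T : Set (S a × S b)} (hi : Inv T) (hf : Few T)
    (h : (∃ f : ℕ → S (both a b), ∀ y ∈ comm T, ∃ (n : ℕ) (σ : Equiv.Perm ℕ), Iso σ (f n) y) ∨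
      ∃ c : (ℕ → Bool) → S (both a b), Continuous c ∧ (∀ s, c s ∈ comm T) ∧
        ∀ s t, (∃ σ : Equiv.Perm ℕ, Iso σ (c s) (c t)) → s = t) :
    (∃ f : ℕ → S a, ∀ x, (∃ z, (x, z) ∈ T) → ∃ (n : ℕ) (σ : Equiv.Perm ℕ), Iso σ (f n) x) ∨
      ∃ c : (ℕ → Bool) → S a, Continuous c ∧ (∀ s, ∃ z, (c s, z) ∈ T) ∧
        ∀ s t, (∃ σ : Equiv.Perm ℕ, Iso σ (c s) (c t)) → s = t := by
  classical
  rcases h with ⟨f, hf'⟩ | ⟨c, hc, hcT, hci⟩
  · left
    refine ⟨fun n => fs (f n), ?_⟩
    rintro x ⟨z, hz⟩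
    obtain ⟨n, σ, hσ⟩ := hf' (mk x z) (by
      show (fs (mk x z), sn (mk x z)) ∈ T
      rw [fs_mk, sn_mk]
      exact hz)
    refine ⟨n, σ, ?_⟩
    have := (iso_iff.1 hσ).1
    rwa [fs_mk] at this
  · right
    have hme : Measurable fun s => fs (c s) := (fs_cont.comp hc).measurable
    have han := analytic_iso (fun s => fs (c s)) (fun s => fs (c s)) hme hme
    have hcnt : ∀ y ∈ comm T, ∃ C : Set (S (both a b)), C.Countable ∧ ∀ y' ∈ comm T,
        (∃ σ : Equiv.Perm ℕ, Iso σ (fs y) (fs y')) → ∃ c ∈ C, ∃ σ : Equiv.Perm ℕ, Iso σ c y' := by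
      intro y _
      obtain ⟨f, hf'⟩ := hf (fs y)
      refine ⟨Set.range fun n => mk (fs y) (f n), Set.countable_range _, ?_⟩
      rintro y' hy' ⟨σ, hσ⟩
      have h1 : (fs y, mv σ.symm (sn y')) ∈ T :=
        hi _ hy' (fs y, mv σ.symm (sn y')) σ.symm hσ.symm (iso_mv _ _)
      obtain ⟨n, τ, h2, h3⟩ := hf' _ h1
      refine ⟨_, ⟨n, rfl⟩, τ.trans σ, ?_⟩
      rw [iso_iff]
      dsimp only
      rw [fs_mk, sn_mk]
      refine ⟨h2.trans hσ, h3.trans ?_⟩
      have := (iso_mv σ.symm (sn y')).symm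
      simpa using this
    obtain ⟨h, hh1, hh2⟩ := Pool.Agent.H702R3.TV.core (E := fun x y : S (both a b) => ∃ σ : Equiv.Perm ℕ, Iso σ x y)
      (F := fun x y : S a => ∃ σ : Equiv.Perm ℕ, Iso σ x y) (ρ := fs) (A := comm T)
      (fun x y ⟨σ, hσ⟩ => ⟨_, hσ.symm⟩)
      (fun x y z ⟨σ, hσ⟩ ⟨τ, hτ⟩ => ⟨_, hσ.trans hτ⟩) hcnt c hcT hci han
    exact ⟨fun s => fs (c (h s)), fs_cont.comp (hc.comp hh1), fun s => ⟨sn (c (h s)), hcT (h s)⟩,
      fun s t hst => by
        by_contra hne
        exact hh2 _ _ hne hst⟩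

end Pool.Agent.Q331.PT
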